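import Pool.Agent.helper96.DP.SpecE
import Pool.Agent.helper96.DP.Basic

set_option autoImplicit false

namespace DP

theorem EXT_pow {i : ℕ} (h : 6 ≤ i) : 64 ≤ 2 ^ i := by
  calc 64 = 2 ^ 6 := by norm_num
    _ ≤ 2 ^ i := Nat.pow_le_pow_right (by norm_num) h

theorem EXT_okT (x : V) (m r : ℕ) (h : m ≤ r) : (Dfree true x m).ok true x r := by
  unfold Dat.ok Dfree
  simp only [if_true]
  refine ⟨fun _ v hv => ?_, fun _ v hv => ?_⟩
  · have : sd x v = m := hv
    show sd x v ≤ r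
    omega
  · have : sd x v < m := hv
    show sd x v ≤ r
    omega

theorem EXT_okF (x : V) (m r : ℕ) (h : r ≤ m) : (Dfree false x m).ok false x r := by
  unfold Dat.ok Dfree
  simp only [Bool.false_eq_true, if_false]
  refine ⟨fun _ v hv => ?_, fun _ v hv => ?_, m, fun _ v hv => hv⟩
  · have : sd x v = m := hv
    show r ≤ sd x v
    omega
  · have : m < sd x v := hv
    show r ≤ sd x v
    omega

theorem EXT (hSEPO : SEPO_stmt) (hSEPI : SEPI_stmt) (hLB : LB_stmt) (hSF : SF_stmt)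
    (hFA : FA_stmt) (hAM : AM_stmt) (hBmono : Bmono_stmt) : EXT_stmt := by
  obtain ⟨b₀, hb₀, iL, hL⟩ := hLB
  obtain ⟨C₁, hC₁, iO, hO⟩ := hSEPO b₀ hb₀
  obtain ⟨C₂, hC₂, iI, hI⟩ := hSEPI b₀ hb₀
  have hpow : ∀ {i k : ℕ}, i < k → 2 ^ i < 2 ^ k := fun h => Nat.pow_lt_pow_right (by norm_num) h
  have hpow' : ∀ {i k : ℕ}, i ≤ k → 2 ^ i ≤ 2 ^ k := fun h => Nat.pow_le_pow_right (by norm_num) h
  have hpos : ∀ i : ℕ, 1 ≤ 2 ^ i := fun i => Nat.one_le_two_pow
  -- free arms at the outer circle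
  have hFT : ∀ (j : ℕ) (x : V) (a b : ℕ), j = 2 ∨ j = 4 → Even (x.1 + x.2) → a < b →
      ∀ c, Fam c j true x (2 ^ b) (Dfree true x (2 ^ a)) ↔ ar j c x (2 ^ a) (2 ^ b) :=
    fun j x a b hj hx hab c => (hFA c j x (2 ^ a) (2 ^ b) hj hx (hpos a) (hpow hab)).1
  have hFF : ∀ (j : ℕ) (x : V) (a b : ℕ), j = 2 ∨ j = 4 → Even (x.1 + x.2) → a < b →
      ∀ c, Fam c j false x (2 ^ a) (Dfree false x (2 ^ b)) ↔ ar j c x (2 ^ a) (2 ^ b) :=
    fun j x a b hj hx hab c => (hFA c j x (2 ^ a) (2 ^ b) hj hx (hpos a) (hpow hab)).2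
  have hAM' : ∀ (j : ℕ) (x : V) (a a' b' b : ℕ), j = 2 ∨ j = 4 → a ≤ a' → a' ≤ b' → b' ≤ b →
      ∀ c, ar j c x (2 ^ a) (2 ^ b) → ar j c x (2 ^ a') (2 ^ b') :=
    fun j x a a' b' b hj h1 h2 h3 c => hAM c j x _ _ _ _ hj (hpow' h1) (hpow' h2) (hpow' h3)
  refine ⟨min b₀ (min (1 / C₁) (1 / C₂)), by positivity, iL + iO + iI + 10, ?_⟩
  intro j ρ x a b hj hρ hx ha hab
  have hQ0 : ∀ F G, 0 ≤ Q ρ F G := fun F G => MeasureTheory.measureReal_nonneg
  refine ⟨?_, ?_, ?_⟩
  · -- outwards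
    have h1 := hO j ρ x (Dfree true x (2 ^ a)) (a + 1) hj hρ hx (by omega)
      (EXT_okT x _ _ (hpow' (by omega))) (fun c i hi h => by
        rw [hFT j x a (i + 1) hj hx (by omega)] at h
        rw [hFT j x a i hj hx (by omega)]
        exact hAM' j x a a i (i + 1) hj le_rfl (by omega) (by omega) c h)
      (hL j ρ x a hj hρ hx (by omega)).1 b (by omega)
    have h2 : Q ρ (Ev fun c => Fam c j true x (2 ^ b) (Dfree true x (2 ^ a)))
        (Ev fun c => Fam c j true x (2 ^ b) (Dfree true x (2 ^ a))) =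
        Q ρ (Ev fun c => ar j c x (2 ^ a) (2 ^ b)) (Ev fun c => ar j c x (2 ^ a) (2 ^ b)) := by
      have : (Ev fun c => Fam c j true x (2 ^ b) (Dfree true x (2 ^ a))) =
          Ev fun c => ar j c x (2 ^ a) (2 ^ b) := by
        unfold Ev
        ext bb
        exact hFT j x a b hj hx hab (col bb)
      rw [this]
    rw [h2] at h1
    have h3 : (Ev fun c => Std c j true x (2 ^ (b + 1)) (Dfree true x (2 ^ a))) ⊆
        Ev fun c => ar j c x (2 ^ a) (2 ^ (b + 1)) := by
      intro bb hbb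
      exact (hFT j x a (b + 1) hj hx (by omega) (col bb)).1
        (hSF (col bb) j true x _ _ hj (EXT_pow (by omega)) hbb)
    have h4 := hBmono ρ _ _ _ _ h3 h3
    set q := Q ρ (Ev fun c => ar j c x (2 ^ a) (2 ^ b)) (Ev fun c => ar j c x (2 ^ a) (2 ^ b))
    have hq : 0 ≤ q := hQ0 _ _
    calc min b₀ (min (1 / C₁) (1 / C₂)) * q ≤ 1 / C₁ * q :=
          mul_le_mul_of_nonneg_right ((min_le_right _ _).trans (min_le_left _ _)) hq
      _ ≤ _ := by
        rw [div_mul_eq_mul_div, one_mul, div_le_iff₀ hC₁]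
        calc q ≤ _ := h1
          _ ≤ _ := by
            rw [mul_comm]
            exact mul_le_mul_of_nonneg_right h4 hC₁.le
  · -- inwards
    intro ha'
    have h1 := hI j ρ x (Dfree false x (2 ^ b)) (b - 1) hj hρ hx (by omega)
      (EXT_okF x _ _ (hpow' (by omega))) (fun c i hi hi' h => by
        rw [hFF j x i b hj hx (by omega)] at h
        rw [hFF j x (i + 1) b hj hx (by omega)]
        exact hAM' j x i (i + 1) b b hj (by omega) (by omega) le_rfl c h)
      (by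
        have := (hL j ρ x (b - 2) hj hρ hx (by omega)).2.2
        have e1 : b - 2 + 2 = b := by omega
        have e2 : b - 1 - 1 = b - 2 := by omega
        rw [e1] at this
        rw [e2]
        exact this) a (by omega) (by omega)
    have h2 : Q ρ (Ev fun c => Fam c j false x (2 ^ a) (Dfree false x (2 ^ b)))
        (Ev fun c => Fam c j false x (2 ^ a) (Dfree false x (2 ^ b))) =
        Q ρ (Ev fun c => ar j c x (2 ^ a) (2 ^ b)) (Ev fun c => ar j c x (2 ^ a) (2 ^ b)) := by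
      have : (Ev fun c => Fam c j false x (2 ^ a) (Dfree false x (2 ^ b))) =
          Ev fun c => ar j c x (2 ^ a) (2 ^ b) := by
        unfold Ev
        ext bb
        exact hFF j x a b hj hx hab (col bb)
      rw [this]
    rw [h2] at h1
    have h3 : (Ev fun c => Std c j false x (2 ^ (a - 1)) (Dfree false x (2 ^ b))) ⊆
        Ev fun c => ar j c x (2 ^ (a - 1)) (2 ^ b) := by
      intro bb hbb
      exact (hFF j x (a - 1) b hj hx (by omega) (col bb)).1
        (hSF (col bb) j false x _ _ hj (EXT_pow (by omega)) hbb)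
    have h4 := hBmono ρ _ _ _ _ h3 h3
    set q := Q ρ (Ev fun c => ar j c x (2 ^ a) (2 ^ b)) (Ev fun c => ar j c x (2 ^ a) (2 ^ b))
    have hq : 0 ≤ q := hQ0 _ _
    calc min b₀ (min (1 / C₁) (1 / C₂)) * q ≤ 1 / C₂ * q :=
          mul_le_mul_of_nonneg_right ((min_le_right _ _).trans (min_le_right _ _)) hq
      _ ≤ _ := by
        rw [div_mul_eq_mul_div, one_mul, div_le_iff₀ hC₂]
        calc q ≤ _ := h1
          _ ≤ _ := by
            rw [mul_comm]
            exact mul_le_mul_of_nonneg_right h4 hC₂.le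
  · have h1 := (hL j ρ x a hj hρ hx (by omega)).1
    have h3 : (Ev fun c => Std c j true x (2 ^ (a + 2)) (Dfree true x (2 ^ a))) ⊆
        Ev fun c => ar j c x (2 ^ a) (2 ^ (a + 1)) := by
      intro bb hbb
      exact hAM' j x a a (a + 1) (a + 2) hj le_rfl (by omega) (by omega) _
        ((hFT j x a (a + 2) hj hx (by omega) (col bb)).1
        (hSF (col bb) j true x _ _ hj (EXT_pow (by omega)) hbb))
    exact (min_le_left _ _).trans (h1.trans (hBmono ρ _ _ _ _ h3 h3))

end DP
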