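import Pool.Agent.helper96.DP.SpecF
import Pool.Agent.helper96.DP.Basic
import Pool.Agent.helper61.DP.Base

set_option autoImplicit false

namespace DP

/-- Coordinate in the direction of the standard point number `l`. -/
def FRI_f (l : ℕ) (v : V) : ℤ :=
  if l = 0 then v.1 else if l = 1 then v.2 else if l = 2 then -v.1 else -v.2

theorem FRI_f_adj (l : ℕ) {a b : V} (h : Adj a b) : FRI_f l b ≤ FRI_f l a + 1 := by
  have := h.1
  unfold sd at this
  unfold FRI_f
  split_ifs <;> omega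

theorem FRI_exit {W : Set V} {u v : V} (l : ℕ) (K : ℤ) (h : Con W u v) (hu : FRI_f l u ≤ K)
    (hv : K ≤ FRI_f l v) : ∃ w, FRI_f l w = K ∧ Con (W ∩ {z | FRI_f l z ≤ K}) u w := by
  have key : Con (W ∩ {z | FRI_f l z ≤ K}) u v ∨
      ∃ w, FRI_f l w = K ∧ Con (W ∩ {z | FRI_f l z ≤ K}) u w := by
    refine Con.induct h (fun a => Con (W ∩ {z | FRI_f l z ≤ K}) u a ∨
      ∃ w, FRI_f l w = K ∧ Con (W ∩ {z | FRI_f l z ≤ K}) u w) (Or.inl (Con.refl ⟨h.1, hu⟩)) ?_
    rintro a b ha hb hab - (h1 | h1)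
    · by_cases hbm : FRI_f l b ≤ K
      · exact Or.inl (h1.tail hab ⟨hb, hbm⟩)
      · right
        have h2 : FRI_f l a ≤ K := (Con.mem_right h1).2
        have h3 := FRI_f_adj l hab
        exact ⟨a, by omega, h1⟩
    · exact Or.inr h1
  rcases key with h1 | h1
  · exact ⟨v, le_antisymm (Con.mem_right h1).2 hv, h1⟩
  · exact h1

/-- The chain of cells on the ray number `l`. -/
def FRI_gs (x : V) (M l : ℕ) : List V :=
  (List.range 769).map fun t => zpt x (1024 * M + 2 * t * M) l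

theorem FRI_gnb (x : V) (ℓ l r : ℕ) : gnb ℓ (zpt x r l) (zpt x (r + 2 * ℓ) l) := by
  unfold gnb zpt
  split_ifs
  · left; simp only [Prod.mk.injEq, and_true]; push_cast; ring
  · right; right; left; simp only [Prod.mk.injEq, true_and]; push_cast; ring
  · right; left; simp only [Prod.mk.injEq, and_true]; push_cast; ring
  · right; right; right; simp only [Prod.mk.injEq, true_and]; push_cast; ring

theorem FRI_chn (x : V) (ℓ l : ℕ) : Chn ℓ (FRI_gs x ℓ l) := by
  unfold Chn FRI_gs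
  rw [List.isChain_map, List.isChain_range]
  intro m hm
  have h := FRI_gnb x ℓ l (1024 * ℓ + 2 * m * ℓ)
  have h2 : 1024 * ℓ + 2 * m.succ * ℓ = 1024 * ℓ + 2 * m * ℓ + 2 * ℓ := by
    simp only [Nat.succ_eq_add_one]; ring
  rw [h2]
  exact h

theorem FRI_ne (x : V) (ℓ l : ℕ) : FRI_gs x ℓ l ≠ [] := by
  intro h
  have : (FRI_gs x ℓ l).length = 769 := by simp [FRI_gs]
  rw [h] at this
  simp at this

theorem FRI_mem (x : V) (ℓ l t : ℕ) (ht : t < 769) :
    zpt x (1024 * ℓ + 2 * t * ℓ) l ∈ FRI_gs x ℓ l :=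
  List.mem_map.2 ⟨t, List.mem_range.2 ht, rfl⟩

theorem FRI_reg {x : V} {ℓ l : ℕ} {v : V} (hv : v ∈ reg ℓ (FRI_gs x ℓ l)) :
    ∃ r : ℕ, 1024 * ℓ ≤ r ∧ sd (zpt x r l) v < 3 * ℓ := by
  obtain ⟨g, hg, hgv⟩ := hv
  simp only [FRI_gs, List.mem_map, List.mem_range] at hg
  obtain ⟨t, ht, rfl⟩ := hg
  exact ⟨_, Nat.le_add_right _ _, hgv⟩

/-- From an arm through the big loop along the chain to the side of the square. -/
theorem FRI_out (hLH : LH_stmt) (hLC : LC_stmt) (hCH2 : CH2_stmt) (c : V → Bool) (k : Bool) (x : V)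
    (M l : ℕ) (hl : l < 4) (hM : 1 ≤ M) (hx : sd 0 x ≤ 512 * M) {S : Set V}
    (hS : Loop c k (zpt x (1024 * M) l) (16 * M) S) (hF : Full c k M (FRI_gs x M l)) {W : Set V}
    {p u : V} (hW : ∀ w ∈ W, sd x w ≤ 1024 * M ∧ c w = k) (hpu : Con W p u)
    (hp : sd x p ≤ 512 * M) (hu : sd (zpt x (1024 * M) l) u ≤ 16 * M) :
    ∃ w, FRI_f l w = 2048 * M ∧ Conn c k (Dq (512 * M)) p w := by
  have hx' := sd_le_iff.1 hx
  simp only [Prod.fst_zero, Prod.snd_zero] at hx'
  push_cast at hx'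
  obtain ⟨U, hU, hUc, -, hH⟩ := hCH2 c k M _ hF (FRI_chn x M l) (FRI_ne x M l) hM
  obtain ⟨⟨a1, ha1, hA1⟩, ⟨a2, ha2, hA2⟩, ⟨a3, ha3, hA3⟩, a4, ha4, hA4⟩ :=
    hH _ (FRI_mem x M l 0 (by norm_num))
  obtain ⟨⟨b1, hb1, hB1⟩, ⟨b2, hb2, hB2⟩, ⟨b3, hb3, hB3⟩, b4, hb4, hB4⟩ :=
    hH _ (FRI_mem x M l 768 (by norm_num))
  -- inner and outer points of the chain
  have key : ∃ z ∈ U, ∃ z' ∈ U, sd (zpt x (1024 * M) l) z ≤ 16 * M ∧
      3 * (16 * M) ≤ sd (zpt x (1024 * M) l) z' ∧ 2048 * (M : ℤ) ≤ FRI_f l z' := by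
    clear hpu hp hu hS hF hUc hH hx hLH hLC hCH2 hW
    interval_cases l
    · refine ⟨_, hA2, _, hB1, ?_, ?_, ?_⟩
      · obtain ⟨r, hr, h⟩ := FRI_reg (hU _ hA2).1
        clear hU hA1 hA2 hA3 hA4 hB1 hB2 hB3 hB4
        simp only [zpt, sd] at *
        norm_num at *
        omega
      · clear hU hA1 hA2 hA3 hA4 hB1 hB2 hB3 hB4
        simp only [zpt, sd] at *
        norm_num at *
        omega
      · simp only [zpt, FRI_f]
        norm_num
        omega
    · refine ⟨_, hA4, _, hB3, ?_, ?_, ?_⟩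
      · obtain ⟨r, hr, h⟩ := FRI_reg (hU _ hA4).1
        clear hU hA1 hA2 hA3 hA4 hB1 hB2 hB3 hB4
        simp only [zpt, sd] at *
        norm_num at *
        omega
      · clear hU hA1 hA2 hA3 hA4 hB1 hB2 hB3 hB4
        simp only [zpt, sd] at *
        norm_num at *
        omega
      · simp only [zpt, FRI_f]
        norm_num
        omega
    · refine ⟨_, hA1, _, hB2, ?_, ?_, ?_⟩
      · obtain ⟨r, hr, h⟩ := FRI_reg (hU _ hA1).1
        clear hU hA1 hA2 hA3 hA4 hB1 hB2 hB3 hB4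
        simp only [zpt, sd] at *
        norm_num at *
        omega
      · clear hU hA1 hA2 hA3 hA4 hB1 hB2 hB3 hB4
        simp only [zpt, sd] at *
        norm_num at *
        omega
      · simp only [zpt, FRI_f]
        norm_num
        omega
    · refine ⟨_, hA3, _, hB4, ?_, ?_, ?_⟩
      · obtain ⟨r, hr, h⟩ := FRI_reg (hU _ hA3).1
        clear hU hA1 hA2 hA3 hA4 hB1 hB2 hB3 hB4
        simp only [zpt, sd] at *
        norm_num at *
        omega
      · clear hU hA1 hA2 hA3 hA4 hB1 hB2 hB3 hB4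
        simp only [zpt, sd] at *
        norm_num at *
        omega
      · simp only [zpt, FRI_f]
        norm_num
        omega
  obtain ⟨z, hz, z', hz', h1, h2, h3⟩ := key
  obtain ⟨y, hyS, hy⟩ := hLH c k _ _ S hS U z z' (hUc z hz z' hz') h1 h2
  have hp3 : 3 * (16 * M) ≤ sd (zpt x (1024 * M) l) p := by
    clear hpu hS hF hUc hH hLH hLC hCH2 hW hU hA1 hA2 hA3 hA4 hB1 hB2 hB3 hB4 h1 h2 h3 hu
    interval_cases l <;> simp only [zpt, sd] at * <;> norm_num at * <;> omega
  obtain ⟨y', hyS', hy'⟩ := hLH c k _ _ S hS W u p hpu.symm hu hp3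
  have hyy := hLC c k _ _ S hS y' hyS' y hyS
  have hSm : ∀ v ∈ S, sd (zpt x (1024 * M) l) v < 3 * (16 * M) ∧ c v = k := by
    obtain ⟨L, s, hL, -, hSL⟩ := hS
    intro v hv
    rw [hSL] at hv
    have := hL.subset v hv
    exact ⟨this.2.1, this.2.2⟩
  have hyf : FRI_f l y ≤ 2048 * M := by
    have h4 := (hSm y hyS).1
    clear hpu hS hF hUc hH hLH hLC hCH2 hW hU hA1 hA2 hA3 hA4 hB1 hB2 hB3 hB4 h1 h2 h3 hp3 hSm hy hy' hyy hu hp
    interval_cases l <;> simp only [zpt, sd, FRI_f] at * <;> norm_num at * <;> omega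
  obtain ⟨w, hw, hyw⟩ := FRI_exit l (2048 * M) (hUc y hy.mem_right z' hz') hyf h3
  refine ⟨w, hw, ?_⟩
  have c1 : Conn c k (Dq (512 * M)) p u := by
    refine Con.mono ?_ hpu
    intro v hv
    refine ⟨?_, (hW v hv).2⟩
    have h4 := (hW v hv).1
    have h5 := sd_le_iff.1 h4
    simp only [Dq, rect, Set.mem_ofPred_eq]
    push_cast at *
    omega
  have c2 : Conn c k (Dq (512 * M)) u y' := by
    refine Con.mono ?_ hy'
    intro v hv
    refine ⟨?_, (hW v hv).2⟩
    have h4 := (hW v hv).1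
    have h5 := sd_le_iff.1 h4
    simp only [Dq, rect, Set.mem_ofPred_eq]
    push_cast at *
    omega
  have c3 : Conn c k (Dq (512 * M)) y' y := by
    refine Con.mono ?_ hyy
    intro v hv
    refine ⟨?_, (hSm v hv).2⟩
    have h4 := (hSm v hv).1
    simp only [Dq, rect, Set.mem_ofPred_eq]
    clear hA1 hA2 hA3 hA4 hB1 hB2 hB3 hB4 hU hUc hH hS hF hW hpu
    interval_cases l <;> simp only [zpt, sd] at h4 <;> norm_num at h4 <;> push_cast <;> omega
  have c4 : Conn c k (Dq (512 * M)) y w := by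
    refine Con.mono ?_ hyw
    rintro v ⟨hv, hvf⟩
    refine ⟨?_, (hU v hv).2⟩
    obtain ⟨r, hr, h⟩ := FRI_reg (hU v hv).1
    simp only [Set.mem_ofPred_eq] at hvf
    simp only [Dq, rect, Set.mem_ofPred_eq]
    clear hA1 hA2 hA3 hA4 hB1 hB2 hB3 hB4 hU hUc hH hS hF hW hpu
    interval_cases l <;> simp only [zpt, sd, FRI_f] at h hvf <;> norm_num at h hvf <;> push_cast <;>
      omega
  exact ((c1.trans c2).trans c3).trans c4

/-- Both arms of one colour are joined to the two opposite sides. -/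
theorem FRI_pair (hLH : LH_stmt) (hLC : LC_stmt) (hCH2 : CH2_stmt) (c : V → Bool) (k : Bool) (x : V)
    (M m i A : ℕ) (hi : i < 2) (hki : kol i = k) (hki' : kol (i + 2) = k) (hM : 1 ≤ M)
    (hx : sd 0 x ≤ 512 * M)
    (hm : 2 * m ≤ 512 * M) (hC : MrkC c 4 true x (1024 * M) (Dmark 4 x m) (zpt x (1024 * M)) (16 * M) A k)
    (h1 : ∃ S, Loop c k (zpt x (1024 * M) i) (16 * M) S) (h2 : Full c k M (FRI_gs x M i))
    (h3 : ∃ S, Loop c k (zpt x (1024 * M) (i + 2)) (16 * M) S)
    (h4 : Full c k M (FRI_gs x M (i + 2))) :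
    ∃ p q, p ∈ (Dmark 4 x m).I i ∧ q ∈ (Dmark 4 x m).I (i + 2) ∧ ∃ w w', FRI_f i w = 2048 * M ∧
      FRI_f (i + 2) w' = 2048 * M ∧
        ((Conn c k (Dq (512 * M)) p w ∧ Conn c k (Dq (512 * M)) q w') ∨
          (Conn c k (Dq (512 * M)) p w' ∧ Conn c k (Dq (512 * M)) q w)) := by
  obtain ⟨S, hS⟩ := h1
  obtain ⟨S', hS'⟩ := h3
  have hmem : ∀ l, ∀ p ∈ (Dmark 4 x m).I l, sd x p ≤ 512 * M := by
    intro l p hp
    have : sd x p = m := hp.1
    omega
  have hWW : ∀ (N : Set V), ∀ w ∈ {w | w ∈ HS true x (1024 * M) \ N ∧ c w = k},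
      sd x w ≤ 1024 * M ∧ c w = k := by
    rintro N w ⟨⟨hw, -⟩, hw'⟩
    simp only [HS, if_true] at hw
    exact ⟨hw, hw'⟩
  have e2 : (i + 2) % 4 = i + 2 := Nat.mod_eq_of_lt (by omega)
  have e4 : (i + 2 + 2) % 4 = i := by omega
  rcases hC with hC | hC
  · obtain ⟨p, hp, u, hu, hpu, hcon⟩ := hC i (by omega) hki
    obtain ⟨q, hq, v, hv, hqv, hcon'⟩ := hC (i + 2) (by omega) hki'
    obtain ⟨w, hw, hw'⟩ := FRI_out hLH hLC hCH2 c k x M i (by omega) hM hx hS h2 (hWW _) hcon
      (hmem _ p hp) hpu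
    obtain ⟨w', hw1, hw1'⟩ := FRI_out hLH hLC hCH2 c k x M (i + 2) (by omega) hM hx hS' h4 (hWW _)
      hcon' (hmem _ q hq) hqv
    exact ⟨p, q, hp, hq, w, w', hw, hw1, Or.inl ⟨hw', hw1'⟩⟩
  · obtain ⟨p, hp, u, hu, hpu, hcon⟩ := hC i (by omega) hki
    obtain ⟨q, hq, v, hv, hqv, hcon'⟩ := hC (i + 2) (by omega) hki'
    rw [e2] at hpu
    rw [e4] at hqv
    obtain ⟨w', hw1, hw1'⟩ := FRI_out hLH hLC hCH2 c k x M (i + 2) (by omega) hM hx hS' h4 (hWW _)
      hcon (hmem _ p hp) hpu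
    obtain ⟨w, hw, hw'⟩ := FRI_out hLH hLC hCH2 c k x M i (by omega) hM hx hS h2 (hWW _) hcon'
      (hmem _ q hq) hqv
    exact ⟨p, q, hp, hq, w, w', hw, hw1, Or.inr ⟨hw1', hw'⟩⟩

theorem FRI_vert {W : Set V} (i j j' : ℤ) (h : ∀ t, min j j' ≤ t → t ≤ max j j' → (i, t) ∈ W) :
    Con W (i, j) (i, j') := by
  rcases le_total j j' with hj | hj
  · exact con_vert i j j' hj fun t h1 h2 => h t (by simp [hj, h1]) (by simp [hj, h2])
  · exact (con_vert i j' j hj fun t h1 h2 => h t (by simp [hj, h1]) (by simp [hj, h2])).symm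

theorem FRI_horiz {W : Set V} (j i i' : ℤ) (h : ∀ t, min i i' ≤ t → t ≤ max i i' → (t, j) ∈ W) :
    Con W (i, j) (i', j) := by
  rcases le_total i i' with hj | hj
  · exact con_horiz j i i' hj fun t h1 h2 => h t (by simp [hj, h1]) (by simp [hj, h2])
  · exact (con_horiz j i' i hj fun t h1 h2 => h t (by simp [hj, h1]) (by simp [hj, h2])).symm

/-- Black connection inside. -/
theorem FRI_black (b : V → Bool) (x : V) (m : ℕ) (R : Set V) (hx1 : Even x.1) (hx2 : Even x.2)
    (hm : Even m) (hm64 : 64 ≤ m) (hR : ∀ w, sd x w ≤ m → w ∈ R) (he : b (x.1 + 1, x.2) = true)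
    (hI : Inn b x m) (p q : V) (hp : sd x p = m) (hpz : sd (zpt x m 0) p ≤ m / 64)
    (hpc : col b p = true) (hq : sd x q = m) (hqz : sd (zpt x m 2) q ≤ m / 64)
    (hqc : col b q = true) : Conn (col b) true R p q := by
  obtain ⟨x1, x2⟩ := x
  obtain ⟨p1, p2⟩ := p
  obtain ⟨q1, q2⟩ := q
  rw [Int.even_iff] at hx1 hx2
  rw [Nat.even_iff] at hm
  simp only at hx1 hx2 he
  have hb' : ∀ X Y : ℤ, X % 2 = 0 → Y % 2 = 0 → col b (X, Y) = true := by
    intro X Y h1 h2
    unfold col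
    rw [if_pos ⟨h1, h2⟩]
  have hb : ∀ X Y : ℤ, (X - x1).natAbs < m → (Y - x2).natAbs ≤ m / 32 → (X ≠ x1 + 1 ∨ Y = x2) →
      (X % 2 = 0 ∨ Y % 2 = 0) → col b (X, Y) = true := by
    intro X Y h1 h2 h3 h4
    unfold col
    split_ifs with h5 h6
    · rfl
    · simp only at h6
      omega
    · by_cases hE : X = x1 + 1 ∧ Y = x2
      · rw [hE.1, hE.2]
        exact he
      · have hE' : (X, Y) ≠ (x1 + 1, x2) := by
          intro h
          simp only [Prod.mk.injEq] at h
          exact hE h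
        have hXY : ¬ (X = x1 + 1) := by
          intro h7
          rcases h3 with h3 | h3
          · exact h3 h7
          · exact hE' (by rw [h7, h3])
        rw [hI (X, Y) (by unfold sd; simp only; omega) hE']
        simp only [Bool.not_eq_eq_eq_not, Bool.not_true, decide_eq_false_iff_not, not_or]
        exact ⟨hXY, by omega⟩
  simp only [zpt, sd] at hp hpz hq hqz
  norm_num at hpz hqz
  have hp1 : p1 = x1 + m := by omega
  have hq1 : q1 = x1 - m := by omega
  subst hp1 hq1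
  have hmem : ∀ X Y : ℤ, (X - x1).natAbs ≤ m → (Y - x2).natAbs ≤ m → col b (X, Y) = true →
      (X, Y) ∈ {w | w ∈ R ∧ col b w = true} := by
    intro X Y h1 h2 h3
    exact ⟨hR _ (by unfold sd; simp only; omega), h3⟩
  -- right
  obtain ⟨Y, hY, hY', c1⟩ : ∃ Y : ℤ, Y % 2 = 0 ∧ (Y - x2).natAbs ≤ m / 32 ∧
      Con {w | w ∈ R ∧ col b w = true} (x1 + m, p2) (x1 + m, Y) := by
    by_cases h : p2 % 2 = 0
    · exact ⟨p2, h, by omega, Con.refl (hmem _ _ (by omega) (by omega) (hb' _ _ (by omega) h))⟩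
    · refine ⟨p2 + 1, by omega, by omega, ?_⟩
      exact Con.single (hmem _ _ (by omega) (by omega) hpc) (adj_up (x1 + m, p2))
        (hmem _ _ (by omega) (by omega) (hb' _ _ (by omega) (by omega)))
  obtain ⟨Z, hZ, hZ', d1⟩ : ∃ Y : ℤ, Y % 2 = 0 ∧ (Y - x2).natAbs ≤ m / 32 ∧
      Con {w | w ∈ R ∧ col b w = true} (x1 - m, q2) (x1 - m, Y) := by
    by_cases h : q2 % 2 = 0
    · exact ⟨q2, h, by omega, Con.refl (hmem _ _ (by omega) (by omega) (hb' _ _ (by omega) h))⟩
    · refine ⟨q2 + 1, by omega, by omega, ?_⟩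
      exact Con.single (hmem _ _ (by omega) (by omega) hqc) (adj_up (x1 - m, q2))
        (hmem _ _ (by omega) (by omega) (hb' _ _ (by omega) (by omega)))
  have c2 : Con {w | w ∈ R ∧ col b w = true} (x1 + m, Y) (x1 + 2, Y) := by
    refine FRI_horiz Y _ _ fun t h1 h2 => hmem _ _ (by omega) (by omega) ?_
    by_cases ht : t = x1 + m
    · exact hb' _ _ (by omega) hY
    · exact hb _ _ (by omega) (by omega) (Or.inl (by omega)) (Or.inr hY)
  have c3 : Con {w | w ∈ R ∧ col b w = true} (x1 + 2, Y) (x1 + 2, x2) := by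
    refine FRI_vert _ _ _ fun t h1 h2 => hmem _ _ (by omega) (by omega) ?_
    exact hb _ _ (by omega) (by omega) (Or.inl (by omega)) (Or.inl (by omega))
  have c4 : Con {w | w ∈ R ∧ col b w = true} (x1 + 2, x2) (x1, x2) := by
    refine FRI_horiz _ _ _ fun t h1 h2 => hmem _ _ (by omega) (by omega) ?_
    exact hb _ _ (by omega) (by omega) (Or.inr rfl) (Or.inr (by omega))
  have d2 : Con {w | w ∈ R ∧ col b w = true} (x1 - m, Z) (x1, Z) := by
    refine FRI_horiz Z _ _ fun t h1 h2 => hmem _ _ (by omega) (by omega) ?_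
    by_cases ht : t = x1 - m
    · exact hb' _ _ (by omega) hZ
    · exact hb _ _ (by omega) (by omega) (Or.inl (by omega)) (Or.inr hZ)
  have d3 : Con {w | w ∈ R ∧ col b w = true} (x1, Z) (x1, x2) := by
    refine FRI_vert _ _ _ fun t h1 h2 => hmem _ _ (by omega) (by omega) ?_
    exact hb _ _ (by omega) (by omega) (Or.inl (by omega)) (Or.inl (by omega))
  exact (((c1.trans c2).trans c3).trans c4).trans ((d1.trans d2).trans d3).symm

/-- White connection inside. -/
theorem FRI_white (b : V → Bool) (x : V) (m : ℕ) (R : Set V) (hx1 : Even x.1) (hx2 : Even x.2)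
    (hm : Even m) (hm64 : 64 ≤ m) (hR : ∀ w, sd x w ≤ m → w ∈ R) (he : b (x.1 + 1, x.2) = false)
    (hI : Inn b x m) (p q : V) (hp : sd x p = m) (hpz : sd (zpt x m 1) p ≤ m / 64)
    (hpc : col b p = false) (hq : sd x q = m) (hqz : sd (zpt x m 3) q ≤ m / 64)
    (hqc : col b q = false) : Conn (col b) false R p q := by
  obtain ⟨x1, x2⟩ := x
  obtain ⟨p1, p2⟩ := p
  obtain ⟨q1, q2⟩ := q
  rw [Int.even_iff] at hx1 hx2
  rw [Nat.even_iff] at hm
  simp only at hx1 hx2 he
  have hw : ∀ X Y : ℤ, (X - x1).natAbs < m → (Y - x2).natAbs < m →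
      (X = x1 + 1 ∨ m / 32 < (Y - x2).natAbs) → (X % 2 = 1 ∨ Y % 2 = 1) →
        col b (X, Y) = false := by
    intro X Y h1 h2 h3 h4
    unfold col
    split_ifs with h5 h6
    · simp only at h5
      omega
    · rfl
    · by_cases hE : X = x1 + 1 ∧ Y = x2
      · rw [hE.1, hE.2]
        exact he
      · have hE' : (X, Y) ≠ (x1 + 1, x2) := by
          intro h
          simp only [Prod.mk.injEq] at h
          exact hE h
        rw [hI (X, Y) (by unfold sd; simp only; omega) hE']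
        simp only [Bool.not_eq_eq_eq_not, Bool.not_false, decide_eq_true_eq]
        exact h3
  have hodd : ∀ X Y : ℤ, col b (X, Y) = false → Y % 2 = 0 → X % 2 = 1 := by
    intro X Y h1 h2
    by_contra h3
    unfold col at h1
    rw [if_pos ⟨by simp only; omega, h2⟩] at h1
    exact absurd h1 (by simp)
  simp only [zpt, sd] at hp hpz hq hqz
  norm_num at hpz hqz
  have hp1 : p2 = x2 + m := by omega
  have hq1 : q2 = x2 - m := by omega
  subst hp1 hq1
  have hpo := hodd _ _ hpc (by omega)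
  have hqo := hodd _ _ hqc (by omega)
  have hmem : ∀ X Y : ℤ, (X - x1).natAbs ≤ m → (Y - x2).natAbs ≤ m → col b (X, Y) = false →
      (X, Y) ∈ {w | w ∈ R ∧ col b w = false} := by
    intro X Y h1 h2 h3
    exact ⟨hR _ (by unfold sd; simp only; omega), h3⟩
  have c1 : Con {w | w ∈ R ∧ col b w = false} (p1, x2 + m) (p1, x2 + m - 1) :=
    Con.single (hmem _ _ (by omega) (by omega) hpc) (adj_down (p1, x2 + m))
      (hmem _ _ (by omega) (by omega) (hw _ _ (by omega) (by omega) (Or.inr (by omega)) (Or.inl hpo)))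
  have c2 : Con {w | w ∈ R ∧ col b w = false} (p1, x2 + m - 1) (x1 + 1, x2 + m - 1) := by
    refine FRI_horiz _ _ _ fun t h1 h2 => hmem _ _ (by omega) (by omega) ?_
    exact hw _ _ (by omega) (by omega) (Or.inr (by omega)) (Or.inr (by omega))
  have c3 : Con {w | w ∈ R ∧ col b w = false} (x1 + 1, x2 + m - 1) (x1 + 1, x2 - m + 1) := by
    refine FRI_vert _ _ _ fun t h1 h2 => hmem _ _ (by omega) (by omega) ?_
    exact hw _ _ (by omega) (by omega) (Or.inl rfl) (Or.inl (by omega))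
  have c4 : Con {w | w ∈ R ∧ col b w = false} (x1 + 1, x2 - m + 1) (q1, x2 - m + 1) := by
    refine FRI_horiz _ _ _ fun t h1 h2 => hmem _ _ (by omega) (by omega) ?_
    exact hw _ _ (by omega) (by omega) (Or.inr (by omega)) (Or.inr (by omega))
  have c5 : Con {w | w ∈ R ∧ col b w = false} (q1, x2 - m) (q1, x2 - m + 1) :=
    Con.single (hmem _ _ (by omega) (by omega) hqc) (adj_up (q1, x2 - m))
      (hmem _ _ (by omega) (by omega) (hw _ _ (by omega) (by omega) (Or.inr (by omega)) (Or.inl hqo)))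
  exact (((c1.trans c2).trans c3).trans c4).trans c5.symm

theorem FRI (hLH : LH_stmt) (hLC : LC_stmt) (hCH2 : CH2_stmt) (hRC : RC_stmt) : FRI_stmt := by
  intro b x m j gs hx1 hx2 hm hm64 hmj hj hx hS hI hL
  obtain ⟨M, hM, hM1⟩ : ∃ M : ℕ, 2 ^ (j - 9) = M ∧ 1 ≤ M := ⟨_, rfl, Nat.one_le_two_pow⟩
  have e0 : 2 ^ j = 512 * M := by
    rw [← hM, show (512 : ℕ) = 2 ^ 9 by norm_num, ← pow_add]; congr 1; omega
  have e1 : 2 ^ (j + 1) = 1024 * M := by rw [pow_succ, e0]; ring
  have e5 : 2 ^ (j - 5) = 16 * M := by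
    rw [← hM, show (16 : ℕ) = 2 ^ 4 by norm_num, ← pow_add]; congr 1; omega
  rw [e0] at hmj hx
  rw [e1] at hS
  have hL' : ∀ l < 4, (∃ S, Loop (col b) (kol l) (zpt x (1024 * M) l) (16 * M) S) ∧
      Full (col b) (kol l) M (FRI_gs x M l) := by
    intro l hl
    obtain ⟨h1, h2, h3⟩ := hL l hl
    rw [e1, e5] at h1
    refine ⟨h1, ?_⟩
    rw [h2, hM, e1] at h3
    exact h3
  rw [e0]
  have e16 : 1024 * M / 64 = 16 * M := by omega
  obtain ⟨hST, hSF⟩ := hS
  rw [e16] at hST hSF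
  obtain ⟨p, q, hp, hq, w, w', hw, hw', hcon⟩ := FRI_pair hLH hLC hCH2 (col b) true x M m 0 _
    (by norm_num) rfl rfl hM1 hx hmj hST (hL' 0 (by norm_num)).1 (hL' 0 (by norm_num)).2
    (hL' 2 (by norm_num)).1 (hL' 2 (by norm_num)).2
  obtain ⟨r, s, hr, hs, y, y', hy, hy', hcon'⟩ := FRI_pair hLH hLC hCH2 (col b) false x M m 1 _
    (by norm_num) rfl rfl hM1 hx hmj hSF (hL' 1 (by norm_num)).1 (hL' 1 (by norm_num)).2
    (hL' 3 (by norm_num)).1 (hL' 3 (by norm_num)).2
  classical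
  have hxx := sd_le_iff.1 hx
  simp only [Prod.fst_zero, Prod.snd_zero] at hxx
  push_cast at hxx
  have hR : ∀ w, sd x w ≤ m → w ∈ Dq (512 * M) := by
    intro w hw
    have h1 := sd_le_iff.1 hw
    simp only [Dq, rect, Set.mem_ofPred_eq]
    push_cast
    omega
  have hdiff : ∀ t : Bool, ∀ v, v ≠ (x.1 + 1, x.2) → Function.update b (x.1 + 1, x.2) t v = b v :=
    fun t v hv => Function.update_of_ne hv _ _
  have hI' : ∀ t : Bool, Inn (Function.update b (x.1 + 1, x.2) t) x m := by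
    intro t v hv hv'
    rw [hdiff t v hv']
    exact hI v hv hv'
  have hmono : ∀ t : Bool, ∀ v, col b v = t → col (Function.update b (x.1 + 1, x.2) t) v = t := by
    intro t v hv
    refine col_mono (fun h => ?_) hv
    by_cases h1 : v = (x.1 + 1, x.2)
    · rw [h1]
      exact Function.update_self _ _ _
    · rw [hdiff t v h1]
      exact h
  refine ⟨Function.update b (x.1 + 1, x.2) true, Function.update b (x.1 + 1, x.2) false,
    fun v hv => ⟨hdiff _ v hv, hdiff _ v hv⟩, ?_, ?_⟩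
  · -- black crossing
    set b' := Function.update b (x.1 + 1, x.2) true with hb'
    have hmono' : ∀ {u v : V}, Conn (col b) true (Dq (512 * M)) u v →
        Conn (col b') true (Dq (512 * M)) u v := fun h =>
      Conn.colour_mono (fun v _ h => hmono true v h) h
    have hin : Conn (col b') true (Dq (512 * M)) p q := by
      have hpc : col b p = true := by
        rcases hcon with h | h
        · exact h.1.colour_left
        · exact h.1.colour_left
      have hqc : col b q = true := by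
        rcases hcon with h | h
        · exact h.2.colour_left
        · exact h.2.colour_left
      exact FRI_black b' x m _ hx1 hx2 hm hm64 hR (Function.update_self _ _ _) (hI' true) p q hp.1
        hp.2 (hmono true p hpc) hq.1 hq.2 (hmono true q hqc)
    have hout : Conn (col b') true (Dq (512 * M)) w' w := by
      rcases hcon with h | h
      · exact ((hmono' h.2).symm.trans hin.symm).trans (hmono' h.1)
      · exact ((hmono' h.1).symm.trans hin).trans (hmono' h.2)
    show hcross (col b') true _ _ _ _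
    refine ⟨w', w, ?_, ?_, hout⟩
    · simp only [FRI_f] at hw'
      norm_num at hw'
      push_cast
      omega
    · simp only [FRI_f] at hw
      norm_num at hw
      push_cast
      omega
  · -- white crossing
    set b' := Function.update b (x.1 + 1, x.2) false with hb'
    have hmono' : ∀ {u v : V}, Conn (col b) false (Dq (512 * M)) u v →
        Conn (col b') false (Dq (512 * M)) u v := fun h =>
      Conn.colour_mono (fun v _ h => hmono false v h) h
    have hin : Conn (col b') false (Dq (512 * M)) r s := by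
      have hpc : col b r = false := by
        rcases hcon' with h | h
        · exact h.1.colour_left
        · exact h.1.colour_left
      have hqc : col b s = false := by
        rcases hcon' with h | h
        · exact h.2.colour_left
        · exact h.2.colour_left
      exact FRI_white b' x m _ hx1 hx2 hm hm64 hR (Function.update_self _ _ _) (hI' false) r s hr.1
        hr.2 (hmono false r hpc) hs.1 hs.2 (hmono false s hqc)
    have hout : Conn (col b') false (Dq (512 * M)) y' y := by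
      rcases hcon' with h | h
      · exact ((hmono' h.2).symm.trans hin.symm).trans (hmono' h.1)
      · exact ((hmono' h.1).symm.trans hin).trans (hmono' h.2)
    intro hcr
    obtain ⟨u, v, hu, hv, huv⟩ : hcross (col b') true _ _ _ _ := hcr
    have h1 : y'.2 = -(4 * ((512 * M : ℕ) : ℤ)) := by
      simp only [FRI_f] at hy'
      norm_num at hy'
      push_cast
      omega
    have h2 : y.2 = 4 * ((512 * M : ℕ) : ℤ) := by
      simp only [FRI_f] at hy
      norm_num at hy
      push_cast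
      omega
    obtain ⟨z, hz, hz'⟩ := hRC _ _ _ _ _ _ (fun z hz => hz.1) (fun z hz => hz.1) u v y' y hu hv h1 h2
      huv hout
    have h3 := hz.2
    rw [hz'.2] at h3
    exact absurd h3 (by simp)

end DP
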