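import Pool.Agent.helper96.DP.SpecF
import Pool.Agent.helper74.DP.SE1
import Pool.Agent.helper38.DP.FRI

set_option autoImplicit false

namespace DP

open MeasureTheory

/-! ## The cells -/

def FRP_cells (x : V) (M l : ℕ) : List (V × ℕ) :=
  (zpt x (1024 * M) l, 16 * M) :: (FRI_gs x M l).map fun g => (g, M)

def FRP_all (x : V) (M : ℕ) (k : Bool) : List (V × ℕ) :=
  ((List.range 4).filter fun l => decide (kol l = k)).flatMap (FRP_cells x M)

theorem FRP_all_mem {x : V} {M : ℕ} {k : Bool} {a : V × ℕ} (h : a ∈ FRP_all x M k) :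
    ∃ l < 4, kol l = k ∧ a ∈ FRP_cells x M l := by
  unfold FRP_all at h
  rw [List.mem_flatMap] at h
  obtain ⟨l, hl, ha⟩ := h
  rw [List.mem_filter, List.mem_range] at hl
  exact ⟨l, hl.1, of_decide_eq_true hl.2, ha⟩

theorem FRP_mem_all {x : V} {M : ℕ} {k : Bool} {a : V × ℕ} {l : ℕ} (hl : l < 4)
    (hk : kol l = k) (h : a ∈ FRP_cells x M l) : a ∈ FRP_all x M k := by
  unfold FRP_all
  rw [List.mem_flatMap]
  exact ⟨l, List.mem_filter.2 ⟨List.mem_range.2 hl, decide_eq_true hk⟩, h⟩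

theorem FRP_cells_mem {x : V} {M l : ℕ} {a : V × ℕ} (h : a ∈ FRP_cells x M l) :
    (a = (zpt x (1024 * M) l, 16 * M)) ∨ ∃ r, 1024 * M ≤ r ∧ a = (zpt x r l, M) := by
  unfold FRP_cells at h
  rcases List.mem_cons.1 h with h | h
  · exact Or.inl h
  · rw [List.mem_map] at h
    obtain ⟨g, hg, rfl⟩ := h
    simp only [FRI_gs, List.mem_map, List.mem_range] at hg
    obtain ⟨t, ht, rfl⟩ := hg
    exact Or.inr ⟨_, Nat.le_add_right _ _, rfl⟩

theorem FRP_length (x : V) (M : ℕ) (k : Bool) : (FRP_all x M k).length = 1540 := by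
  have h1 : ∀ l, (FRP_cells x M l).length = 770 := by
    intro l
    unfold FRP_cells FRI_gs
    rw [List.length_cons, List.length_map, List.length_map, List.length_range]
  unfold FRP_all
  rw [List.length_flatMap]
  cases k
  · have e : (List.range 4).filter (fun l => decide (kol l = false)) = [1, 3] := by decide
    rw [e]
    simp only [List.map_cons, List.map_nil, List.sum_cons, List.sum_nil, h1]
    norm_num
  · have e : (List.range 4).filter (fun l => decide (kol l = true)) = [0, 2] := by decide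
    rw [e]
    simp only [List.map_cons, List.map_nil, List.sum_cons, List.sum_nil, h1]
    norm_num

theorem FRP_reg_pos {x : V} {M : ℕ} {k : Bool} {v : V} (h : v ∈ SE1_reg (FRP_all x M k)) :
    ∃ l < 4, kol l = k ∧ ∃ r, (sd (zpt x r l) v < 48 * M ∧ r = 1024 * M ∨
      sd (zpt x r l) v < 3 * M) ∧ 1024 * M ≤ r := by
  obtain ⟨a, ha, hv⟩ := h
  obtain ⟨l, hl, hk, hal⟩ := FRP_all_mem ha
  refine ⟨l, hl, hk, ?_⟩
  rcases FRP_cells_mem hal with rfl | ⟨r, hr, rfl⟩
  · refine ⟨1024 * M, Or.inl ⟨?_, rfl⟩, le_rfl⟩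
    simp only at hv
    omega
  · exact ⟨r, Or.inr hv, hr⟩

theorem FRP_disj (x : V) (M : ℕ) :
    Disjoint (SE1_reg (FRP_all x M true)) (SE1_reg (FRP_all x M false)) := by
  rw [Set.disjoint_left]
  intro v h1 h2
  obtain ⟨l, -, hk, r, hr, hr1⟩ := FRP_reg_pos h1
  obtain ⟨l', -, hk', r', hr', hr1'⟩ := FRP_reg_pos h2
  have h3 := (SE1_zpt_diff x r r' l l' (SE1_kol (by rw [hk, hk']; simp))).1
  have h4 := sd_triangle (zpt x r l) v (zpt x r' l')
  rw [sd_comm v] at h4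
  omega

theorem FRP_avoid (x : V) (M : ℕ) (k : Bool) (N : Set V) (v : V)
    (hv : v ∈ HS true x (1024 * M) \ (N ∪ opp 4 (zpt x (1024 * M)) (128 * M) k)) :
    v ∉ SE1_reg (FRP_all x M (!k)) := by
  intro h
  obtain ⟨l, hl, hk, r, hr, hr1⟩ := FRP_reg_pos h
  obtain ⟨hv1, hv2⟩ := hv
  apply hv2
  refine Or.inr ⟨l, hl, by rw [hk]; simp, ?_⟩
  have h5 := sd_triangle x v (zpt x r l)
  rw [sd_comm v] at h5
  have h6 := SE1_sd_zpt x r l
  have h7 := SE1_zpt_same x (1024 * M) r l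
  have h8 := sd_triangle (zpt x (1024 * M) l) (zpt x r l) v
  have h1 : sd x v ≤ 1024 * M := hv1
  rw [min_eq_left hr1, max_eq_right hr1] at h7
  omega

theorem FRP_far {x : V} {M : ℕ} {k : Bool} {v : V} (h : v ∈ SE1_reg (FRP_all x M k)) :
    512 * M ≤ sd x v := by
  obtain ⟨l, -, hk, r, hr, hr1⟩ := FRP_reg_pos h
  have h5 := sd_triangle x v (zpt x r l)
  rw [sd_comm v] at h5
  have h6 := SE1_sd_zpt x r l
  omega

theorem FRP_ok (x : V) (m r : ℕ) (h : 2 * m ≤ r) : (Dmark 4 x m).ok true x r := by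
  unfold Dat.ok
  simp only [if_true]
  refine ⟨fun i v hv => ?_, fun k v hv => ?_⟩
  · have : sd x v = m := hv.1
    show sd x v ≤ r
    omega
  · rcases hv with hv | ⟨l, hl, hk, hv⟩
    · have : sd x v < m := hv
      show sd x v ≤ r
      omega
    · have h1 := sd_triangle x (zpt x m l) v
      have h2 := SE1_sd_zpt x m l
      show sd x v ≤ r
      omega

/-! ## The inner configuration -/

theorem FRP_Inn_dep (x : V) (m : ℕ) : Dep {b | Inn b x m} {v | sd x v < m} := by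
  intro b b' hb
  constructor
  · intro h w hw hw'
    rw [← hb w hw]
    exact h w hw hw'
  · intro h w hw hw'
    rw [hb w hw]
    exact h w hw hw'

theorem FRP_Inn_loc (x : V) (m : ℕ) : Loc {b | Inn b x m} {v | sd x v < m} := by
  refine Loc.of_finite ((box_finite x m).subset fun v hv => ?_) (FRP_Inn_dep x m)
  have : sd x v < m := hv
  exact this.le

theorem FRP_coin (a : Bool) : (PMF.uniformOfFintype Bool).toMeasure {a} = 1 / 2 := by
  rw [PMF.toMeasure_apply_singleton _ _ (measurableSet_singleton a)]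
  simp

theorem FRP_Inn_prob (x : V) (m : ℕ) : ((1 : ℝ) / 2) ^ ((2 * m + 1) * (2 * m + 1)) ≤ Pr {b | Inn b x m} := by
  classical
  set Λ : Finset V := ((Finset.Icc (x.1 - m) (x.1 + m)) ×ˢ (Finset.Icc (x.2 - m) (x.2 + m))).filter
    (fun w => sd x w < m ∧ w ≠ (x.1 + 1, x.2)) with hΛ
  have h1 : {b : V → Bool | Inn b x m} = Set.pi (Λ : Set V)
      (fun w => {!decide (w.1 = x.1 + 1 ∨ m / 32 < (w.2 - x.2).natAbs)}) := by
    ext b
    constructor
    · intro h w hw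
      rw [Finset.mem_coe, hΛ, Finset.mem_filter] at hw
      exact h w hw.2.1 hw.2.2
    · intro h w hw hw'
      refine h w ?_
      rw [Finset.mem_coe, hΛ, Finset.mem_filter, Finset.mem_product, Finset.mem_Icc, Finset.mem_Icc]
      refine ⟨?_, hw, hw'⟩
      have := sd_le_iff.1 hw.le
      exact this
  have hcard : Λ.card ≤ (2 * m + 1) * (2 * m + 1) := by
    refine le_trans (Finset.card_filter_le _ _) ?_
    rw [Finset.card_product, Int.card_Icc, Int.card_Icc]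
    apply Nat.mul_le_mul <;> omega
  rw [Pr, P1, measureReal_def, h1, Measure.infinitePi_pi _ (fun i _ => measurableSet_singleton _)]
  simp only [FRP_coin, Finset.prod_const]
  rw [ENNReal.toReal_pow]
  simp only [one_div, ENNReal.toReal_inv, ENNReal.toReal_ofNat]
  exact pow_le_pow_of_le_one (by norm_num) (by norm_num) hcard

theorem FRP (hBOTH : BOTH_stmt) (hFRI : FRI_stmt) (hgen : Bgen_stmt) (hind : Bindep_stmt)
    (hC1 : C1_stmt) (hfkg : Bfkg_stmt) (hsq : Bsq_stmt) (hmono : Bmono_stmt) : FRP_stmt := by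
  obtain ⟨CB, hCB, iB, hB⟩ := hBOTH
  obtain ⟨c₀, hc₀, ℓ₀, hℓ₀, hC⟩ := hC1
  have hc₁ : c₀ ≤ 1 := le_trans (hC true (0, 0) ℓ₀ le_rfl) (SE1_Pr_le_one _)
  refine ⟨iB + 10, fun k hk => ?_⟩
  set m : ℕ := 2 ^ (k - 1) with hm
  set I0 : ℝ := ((1 : ℝ) / 2) ^ ((2 * m + 1) * (2 * m + 1)) with hI0
  have hI0p : 0 < I0 := by positivity
  refine ⟨1 / CB * (c₀ ^ 3080 * c₀ ^ 3080) * I0 ^ 2, by positivity, k + ℓ₀ + 20, ?_⟩
  intro j ρ x hj hρ hx1 hx2 hx
  have hxe : Even (x.1 + x.2) := hx1.add hx2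
  obtain ⟨M, hM, hM1⟩ : ∃ M : ℕ, 2 ^ (j - 9) = M ∧ 1 ≤ M := ⟨_, rfl, Nat.one_le_two_pow⟩
  have hMℓ : ℓ₀ ≤ M := by
    have h1 : j - 9 < 2 ^ (j - 9) := Nat.lt_two_pow_self
    omega
  have e0 : 2 ^ j = 512 * M := by
    rw [← hM, show (512 : ℕ) = 2 ^ 9 by norm_num, ← pow_add]; congr 1; omega
  have e1 : 2 ^ (j + 1) = 1024 * M := by rw [pow_succ, e0]; ring
  have e5 : 2 ^ (j - 5) = 16 * M := by
    rw [← hM, show (16 : ℕ) = 2 ^ 4 by norm_num, ← pow_add]; congr 1; omega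
  have hm64 : 64 ≤ m := by
    rw [hm]
    calc 64 = 2 ^ 6 := by norm_num
      _ ≤ 2 ^ (k - 1) := Nat.pow_le_pow_right (by norm_num) (by omega)
  have hme : Even m := by
    rw [hm, show k - 1 = (k - 2) + 1 by omega, pow_succ]
    exact ⟨2 ^ (k - 2), by ring⟩
  have hmj : 2 * m ≤ 2 ^ j := by
    rw [hm]
    calc 2 * 2 ^ (k - 1) = 2 ^ (k - 1 + 1) := by ring
      _ ≤ 2 ^ j := Nat.pow_le_pow_right (by norm_num) (by omega)
  have hmM : 2 * m ≤ 512 * M := by rw [← e0]; exact hmj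
  have hboth := hB 4 ρ x k j (Or.inr rfl) hρ hxe (by omega) (by omega)
  -- the sets
  have hD := FRP_ok x m (512 * M) hmM
  have hSp := SE1_Full_loc true (FRP_all x M true)
  have hSm := SE1_Full_loc false (FRP_all x M false)
  have hMp := SE1_MrkC_loc (j := 4) (n := 1024 * M) (y := zpt x (1024 * M)) (a := 1024 * M / 64)
    (A := 1024 * M / 8) (k := true) hD
  have hMm := SE1_MrkC_loc (j := 4) (n := 1024 * M) (y := zpt x (1024 * M)) (a := 1024 * M / 64)
    (A := 1024 * M / 8) (k := false) hD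
  have e4 : 1024 * M / 8 = 128 * M := by omega
  rw [e4] at hMp hMm
  set Ep : Set (V → Bool) := Ev fun c => MrkC c 4 true x (1024 * M) (Dmark 4 x m) (zpt x (1024 * M))
    (1024 * M / 64) (128 * M) true with hEp
  set Em : Set (V → Bool) := Ev fun c => MrkC c 4 true x (1024 * M) (Dmark 4 x m) (zpt x (1024 * M))
    (1024 * M / 64) (128 * M) false with hEm
  set Up : Set (V → Bool) := Ev fun c => SE1_Full c true (FRP_all x M true) with hUp
  set Um : Set (V → Bool) := Ev fun c => SE1_Full c false (FRP_all x M false) with hUm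
  set Sp := SE1_reg (FRP_all x M true) with hSpdef
  set Sm := SE1_reg (FRP_all x M false) with hSmdef
  have hdisj := FRP_disj x M
  have hout : ∀ (k : Bool) (v : V), v ∈ HS true x (1024 * M) \
      ((Dmark 4 x m).N k ∪ opp 4 (zpt x (1024 * M)) (128 * M) k) → m ≤ sd x v := by
    intro k v hv
    by_contra h
    exact hv.2 (Or.inl (Or.inl (not_le.1 h)))
  have key := hgen ρ Ep Em Up Um ({v | m ≤ sd x v} \ (Sp ∪ Sm)) Sp Sm
    (by
      rw [Set.disjoint_left]
      exact fun v hv hv' => hv.2 (Or.inl hv'))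
    (by
      rw [Set.disjoint_left]
      exact fun v hv hv' => hv.2 (Or.inr hv'))
    hdisj
    (by
      refine hMp.1.mono ?_
      intro v hv
      have h1 : v ∉ Sm := FRP_avoid x M true ((Dmark 4 x m).N true) v hv
      by_cases h2 : v ∈ Sp
      · exact Or.inr h2
      · exact Or.inl ⟨hout true v hv, fun h => h.elim h2 h1⟩)
    (by
      refine hMm.1.mono ?_
      intro v hv
      have h1 : v ∉ Sp := FRP_avoid x M false ((Dmark 4 x m).N false) v hv
      by_cases h2 : v ∈ Sm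
      · exact Or.inr h2
      · exact Or.inl ⟨hout false v hv, fun h => h.elim h1 h2⟩)
    hSp.1 hSm.1 hMp.2 hMm.2 hSp.2 hSm.2
  -- independence of the inner configuration
  have hfarS : Sp ∪ Sm ⊆ {v | m ≤ sd x v} := by
    rintro v (hv | hv)
    · have := FRP_far hv
      show m ≤ sd x v
      omega
    · have := FRP_far hv
      show m ≤ sd x v
      omega
  have hlocE : Loc (Ep ∩ Em ∩ (Up ∩ Um)) {v | m ≤ sd x v} := by
    refine ((hMp.1.inter hMm.1).inter (hSp.1.inter hSm.1)).mono ?_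
    rintro v ((hv | hv) | hv)
    · exact hout true v hv
    · exact hout false v hv
    · exact hfarS hv
  have hlocI := FRP_Inn_loc x m
  have hin := hind ρ (Ep ∩ Em ∩ (Up ∩ Um)) (Ep ∩ Em ∩ (Up ∩ Um)) {b | Inn b x m} {b | Inn b x m}
    {v | m ≤ sd x v} {v | sd x v < m}
    (by
      rw [Set.disjoint_left]
      intro v hv hv'
      have h1 : m ≤ sd x v := hv
      have h2 : sd x v < m := hv'
      omega) hlocE hlocE hlocI hlocI
  have hI2 : I0 ^ 2 ≤ Q ρ {b | Inn b x m} {b | Inn b x m} :=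
    le_trans (pow_le_pow_left₀ hI0p.le (FRP_Inn_prob x m) 2) (hsq ρ _ _ hρ hlocI)
  -- inclusion
  have hincl : (Ep ∩ Em ∩ (Up ∩ Um)) ∩ {b | Inn b x m} ⊆ Piv {(x.1 + 1, x.2)} (fq (2 ^ j)) := by
    rintro b ⟨⟨⟨hb1, hb2⟩, hb3, hb4⟩, hb5⟩
    refine hFRI b x m j (fun l => (List.range (3 * 2 ^ 8 + 1)).map
      (fun t => zpt x (2 ^ (j + 1) + 2 * t * 2 ^ (j - 9)) l)) hx1 hx2 hme hm64 hmj (by omega) hx ?_
      hb5 ?_
    · rw [e1]
      unfold Std Mrk
      rw [e4]
      exact ⟨hb1, hb2⟩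
    · intro l hl
      have hcell : ∀ a ∈ FRP_cells x M l, ∃ S, Loop (col b) (kol l) a.1 a.2 S := by
        intro a ha
        cases hkl : kol l
        · exact hb4 a (FRP_mem_all hl hkl ha)
        · exact hb3 a (FRP_mem_all hl hkl ha)
      rw [e1, e5]
      refine ⟨hcell _ List.mem_cons_self, rfl, ?_⟩
      intro g hg
      rw [hM] at hg ⊢
      exact hcell (g, M) (List.mem_cons_of_mem _ (List.mem_map.2 ⟨g, hg, rfl⟩))
  have hm3 := hmono ρ _ _ _ _ hincl hincl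
  -- probability of the loops
  have hloops : ∀ k : Bool, ∀ a ∈ FRP_all x M k, c₀ ≤ Pr (Ev fun c => ∃ S, Loop c k a.1 a.2 S) := by
    intro k a ha
    apply hC
    obtain ⟨l, -, -, hal⟩ := FRP_all_mem ha
    rcases FRP_cells_mem hal with rfl | ⟨t, -, rfl⟩
    · simp only
      omega
    · exact hMℓ
  have hP : ∀ k : Bool, c₀ ^ 3080 ≤ Q ρ (Ev fun c => SE1_Full c k (FRP_all x M k))
      (Ev fun c => SE1_Full c k (FRP_all x M k)) := by
    intro k
    have := SE1_Full_prob hfkg hsq c₀ k ρ _ hρ hc₀.le (hloops k)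
    rwa [FRP_length] at this
  have hprod : c₀ ^ 3080 * c₀ ^ 3080 ≤ Q ρ Up Up * Q ρ Um Um :=
    mul_le_mul (hP true) (hP false) (by positivity) (SE1_Q_nonneg _ _ _)
  have hset : (Ev fun c => Std c 4 true x (2 ^ (j + 1)) (Dmark 4 x (2 ^ (k - 1)))) = Ep ∩ Em := by
    rw [e1]
    ext b
    unfold Std Mrk Ev
    rw [e4]
    rfl
  rw [hset] at hboth
  have hq : qa ρ 4 x (2 ^ k) (2 ^ j) / CB ≤ Q ρ (Ep ∩ Em) (Ep ∩ Em) := by
    rw [div_le_iff₀ hCB, mul_comm]
    exact hboth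
  have hq0 : 0 ≤ qa ρ 4 x (2 ^ k) (2 ^ j) := SE1_Q_nonneg _ _ _
  calc 1 / CB * (c₀ ^ 3080 * c₀ ^ 3080) * I0 ^ 2 * qa ρ 4 x (2 ^ k) (2 ^ j)
      = (qa ρ 4 x (2 ^ k) (2 ^ j) / CB * (c₀ ^ 3080 * c₀ ^ 3080)) * I0 ^ 2 := by ring
    _ ≤ (Q ρ (Ep ∩ Em) (Ep ∩ Em) * (Q ρ Up Up * Q ρ Um Um)) *
        Q ρ {b | Inn b x m} {b | Inn b x m} := by
        refine mul_le_mul ?_ hI2 (by positivity) ?_
        · exact mul_le_mul hq hprod (by positivity) (SE1_Q_nonneg _ _ _)
        · exact mul_nonneg (SE1_Q_nonneg _ _ _) (mul_nonneg (SE1_Q_nonneg _ _ _) (SE1_Q_nonneg _ _ _))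
    _ ≤ Q ρ (Ep ∩ Em ∩ (Up ∩ Um)) (Ep ∩ Em ∩ (Up ∩ Um)) * Q ρ {b | Inn b x m} {b | Inn b x m} :=
        mul_le_mul_of_nonneg_right key (SE1_Q_nonneg _ _ _)
    _ = _ := hin.symm
    _ ≤ _ := hm3

end DP
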