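import Pool.Agent.helper96.DP.SpecE
import Pool.Agent.helper96.DP.Basic

set_option autoImplicit false

namespace DP

theorem SF_kol (i : ℕ) : kol i = true ↔ i % 2 = 0 := by simp [kol]

theorem SF_kol' (i : ℕ) : kol i = false ↔ i % 2 = 1 := by
  simp [kol]

/-- position of a point of the circle near a standard point -/
theorem SF_pos (x : V) (n i : ℕ) (u : V) (hi : i < 4) (hn : 64 ≤ n) (hu : u ∈ bd x n)
    (h : sd (zpt x n i) u ≤ n / 64) :
    (2 * i + 1) * (n : ℤ) - n / 64 ≤ pos x n u ∧ pos x n u ≤ (2 * i + 1) * (n : ℤ) + n / 64 := by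
  have h1 := sd_le_iff.1 h
  have h2 : sd x u = n := hu
  have h3 : sd x u ≤ n := h2.le
  have h4 := sd_le_iff.1 h3
  unfold sd at h2
  have h5 : i = 0 ∨ i = 1 ∨ i = 2 ∨ i = 3 := by omega
  rcases h5 with rfl | rfl | rfl | rfl
  · simp only [zpt, Nat.zero_mod, if_true] at h1
    unfold pos
    split_ifs <;> push_cast at * <;> omega
  · simp [zpt] at h1
    unfold pos
    split_ifs <;> push_cast at * <;> omega
  · simp [zpt] at h1
    unfold pos
    split_ifs <;> push_cast at * <;> omega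
  · simp [zpt] at h1
    unfold pos
    split_ifs <;> push_cast at * <;> omega

theorem SF_arc (x : V) (n : ℕ) (u v w : V) (hu : u ∈ bd x n) (hv : v ∈ bd x n) (hw : w ∈ bd x n)
    (h : (pos x n u ≤ pos x n w ∧ pos x n w ≤ pos x n v) ∨ (pos x n w ≤ pos x n v ∧ pos x n v < pos x n u) ∨
      (pos x n v < pos x n u ∧ pos x n u ≤ pos x n w)) : onArc x n u v w := by
  refine ⟨hu, hv, hw, ?_⟩
  split_ifs with h1
  · rcases h with h | h | h
    · exact h
    · exact absurd h1 (by omega)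
    · exact absurd h1 (by omega)
  · rcases h with h | h | h
    · exact absurd (h.1.trans h.2) h1
    · exact Or.inr h.1
    · exact Or.inl h.2

theorem SF : SF_stmt := by
  intro c j s x n D hj hn hS
  obtain ⟨hT, hF⟩ := hS
  -- choose end points for each colour
  have key : ∀ k : Bool, MrkC c j s x n D (zpt x n) (n / 64) (n / 8) k →
      ∃ τ : ℕ → ℕ, ((∀ i, τ i = i) ∨ (∀ i, τ i = (i + 2) % j)) ∧ ∀ i < j, kol i = k →
        ∃ u ∈ bd x n, sd (zpt x n (τ i)) u ≤ n / 64 ∧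
          ∃ p ∈ D.I i, Conn c k (HS s x n \ D.N k) p u := by
    intro k hk
    rcases hk with hk | hk
    · refine ⟨fun i => i, Or.inl fun _ => rfl, fun i hi hki => ?_⟩
      obtain ⟨p, hp, u, hu, h1, h2⟩ := hk i hi hki
      refine ⟨u, hu, h1, p, hp, Conn.mono ?_ h2⟩
      intro z hz
      exact ⟨hz.1, fun h => hz.2 (Or.inl h)⟩
    · refine ⟨fun i => (i + 2) % j, Or.inr fun _ => rfl, fun i hi hki => ?_⟩
      obtain ⟨p, hp, u, hu, h1, h2⟩ := hk i hi hki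
      refine ⟨u, hu, h1, p, hp, Conn.mono ?_ h2⟩
      intro z hz
      exact ⟨hz.1, fun h => hz.2 (Or.inl h)⟩
  obtain ⟨τ, hτ, hτ'⟩ := key true hT
  obtain ⟨σ, hσ, hσ'⟩ := key false hF
  have hex : ∀ i, ∃ u : V, i < j → (u ∈ bd x n ∧ sd (zpt x n (if i % 2 = 0 then τ i else σ i)) u ≤ n / 64 ∧
          ∃ p ∈ D.I i, Conn c (kol i) (HS s x n \ D.N (kol i)) p u) := by
    intro i
    by_cases hi : i < j
    · by_cases h2 : i % 2 = 0
      · obtain ⟨u, h3, h4, h5⟩ := hτ' i hi ((SF_kol i).2 h2)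
        refine ⟨u, fun _ => ⟨h3, ?_, ?_⟩⟩
        · rw [if_pos h2]; exact h4
        · rw [(SF_kol i).2 h2]; exact h5
      · obtain ⟨u, h3, h4, h5⟩ := hσ' i hi ((SF_kol' i).2 (by omega))
        refine ⟨u, fun _ => ⟨h3, ?_, ?_⟩⟩
        · rw [if_neg h2]; exact h4
        · rw [(SF_kol' i).2 (by omega)]; exact h5
    · exact ⟨x, fun h => absurd h hi⟩
  choose u hu using hex
  refine ⟨u, ?_, fun i hi => ⟨(hu i hi).1, (hu i hi).2.2⟩⟩
  rcases hj with rfl | rfl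
  · -- two arms
    have h0 := hu 0 (by norm_num)
    have h1 := hu 1 (by norm_num)
    have e0 : τ 0 = 0 := by rcases hτ with h | h <;> rw [h]
    have e1 : σ 1 = 1 := by rcases hσ with h | h <;> rw [h]
    simp only [Nat.zero_mod, if_true, e0] at h0
    simp only [Nat.one_mod, one_ne_zero, if_false, e1] at h1
    have p0 := SF_pos x n 0 (u 0) (by norm_num) hn h0.1 h0.2.1
    have p1 := SF_pos x n 1 (u 1) (by norm_num) hn h1.1 h1.2.1
    simp only [Ord]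
    norm_num
    intro h
    rw [h] at p0
    push_cast at *
    omega
  · have h0 := hu 0 (by norm_num)
    have h1 := hu 1 (by norm_num)
    have h2 := hu 2 (by norm_num)
    have h3 := hu 3 (by norm_num)
    have f0 : (0 : ℕ) % 2 = 0 := rfl
    have f1 : ¬ (1 : ℕ) % 2 = 0 := by norm_num
    have f2 : (2 : ℕ) % 2 = 0 := rfl
    have f3 : ¬ (3 : ℕ) % 2 = 0 := by norm_num
    rw [if_pos f0] at h0
    rw [if_neg f1] at h1
    rw [if_pos f2] at h2
    rw [if_neg f3] at h3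
    have e0 : (τ 0 = 0 ∧ τ 2 = 2) ∨ (τ 0 = 2 ∧ τ 2 = 0) := by
      rcases hτ with h | h
      · left; exact ⟨h 0, h 2⟩
      · right; exact ⟨h 0, h 2⟩
    have e1 : (σ 1 = 1 ∧ σ 3 = 3) ∨ (σ 1 = 3 ∧ σ 3 = 1) := by
      rcases hσ with h | h
      · left; exact ⟨h 1, h 3⟩
      · right; exact ⟨h 1, h 3⟩
    simp only [Ord, if_true]
    have hnod : pos x n (u 0) ≠ pos x n (u 1) ∧ pos x n (u 0) ≠ pos x n (u 2) ∧ pos x n (u 0) ≠ pos x n (u 3) ∧
        pos x n (u 1) ≠ pos x n (u 2) ∧ pos x n (u 1) ≠ pos x n (u 3) ∧ pos x n (u 2) ≠ pos x n (u 3) →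
        [u 0, u 1, u 2, u 3].Nodup := by
      rintro ⟨a1, a2, a3, a4, a5, a6⟩
      simp only [List.nodup_cons, List.mem_cons, List.not_mem_nil, or_false, not_or,
        not_false_eq_true, List.nodup_nil, and_true]
      refine ⟨⟨?_, ?_, ?_⟩, ⟨?_, ?_⟩, ?_⟩ <;> intro h <;> simp_all
    rcases e0 with ⟨e0, e2⟩ | ⟨e0, e2⟩ <;> rcases e1 with ⟨e1, e3⟩ | ⟨e1, e3⟩ <;>
      rw [e0] at h0 <;> rw [e1] at h1 <;> rw [e2] at h2 <;> rw [e3] at h3
    · have p0 := SF_pos x n _ (u 0) (by norm_num) hn h0.1 h0.2.1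
      have p1 := SF_pos x n _ (u 1) (by norm_num) hn h1.1 h1.2.1
      have p2 := SF_pos x n _ (u 2) (by norm_num) hn h2.1 h2.2.1
      have p3 := SF_pos x n _ (u 3) (by norm_num) hn h3.1 h3.2.1
      push_cast at p0 p1 p2 p3
      refine ⟨⟨h0.1, h1.1, h2.1, h3.1⟩, hnod ?_, Or.inl ⟨SF_arc _ _ _ _ _ h0.1 h2.1 h1.1 ?_,
        SF_arc _ _ _ _ _ h2.1 h0.1 h3.1 ?_⟩⟩ <;> omega
    · have p0 := SF_pos x n _ (u 0) (by norm_num) hn h0.1 h0.2.1
      have p1 := SF_pos x n _ (u 1) (by norm_num) hn h1.1 h1.2.1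
      have p2 := SF_pos x n _ (u 2) (by norm_num) hn h2.1 h2.2.1
      have p3 := SF_pos x n _ (u 3) (by norm_num) hn h3.1 h3.2.1
      push_cast at p0 p1 p2 p3
      refine ⟨⟨h0.1, h1.1, h2.1, h3.1⟩, hnod ?_, Or.inr ⟨SF_arc _ _ _ _ _ h0.1 h2.1 h3.1 ?_,
        SF_arc _ _ _ _ _ h2.1 h0.1 h1.1 ?_⟩⟩ <;> omega
    · have p0 := SF_pos x n _ (u 0) (by norm_num) hn h0.1 h0.2.1
      have p1 := SF_pos x n _ (u 1) (by norm_num) hn h1.1 h1.2.1
      have p2 := SF_pos x n _ (u 2) (by norm_num) hn h2.1 h2.2.1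
      have p3 := SF_pos x n _ (u 3) (by norm_num) hn h3.1 h3.2.1
      push_cast at p0 p1 p2 p3
      refine ⟨⟨h0.1, h1.1, h2.1, h3.1⟩, hnod ?_, Or.inr ⟨SF_arc _ _ _ _ _ h0.1 h2.1 h3.1 ?_,
        SF_arc _ _ _ _ _ h2.1 h0.1 h1.1 ?_⟩⟩ <;> omega
    · have p0 := SF_pos x n _ (u 0) (by norm_num) hn h0.1 h0.2.1
      have p1 := SF_pos x n _ (u 1) (by norm_num) hn h1.1 h1.2.1
      have p2 := SF_pos x n _ (u 2) (by norm_num) hn h2.1 h2.2.1
      have p3 := SF_pos x n _ (u 3) (by norm_num) hn h3.1 h3.2.1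
      push_cast at p0 p1 p2 p3
      refine ⟨⟨h0.1, h1.1, h2.1, h3.1⟩, hnod ?_, Or.inl ⟨SF_arc _ _ _ _ _ h0.1 h2.1 h1.1 ?_,
        SF_arc _ _ _ _ _ h2.1 h0.1 h3.1 ?_⟩⟩ <;> omega

end DP
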