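import Pool.Agent.helper96.DP.SpecF
import Pool.Agent.helper96.DP.Basic
import Pool.Agent.helper29.DP.SUB

set_option autoImplicit false

namespace DP

open MeasureTheory

theorem WIN_Q_nonneg (ρ : V → ℝ) (F G : Set (V → Bool)) : 0 ≤ Q ρ F G := measureReal_nonneg

theorem WIN_Q_le_one (ρ : V → ℝ) (F G : Set (V → Bool)) : Q ρ F G ≤ 1 := by
  have : IsProbabilityMeasure (PP ρ) := by unfold PP; infer_instance
  exact measureReal_le_one

theorem WIN_al (hQZ : QZ_stmt) (k i : ℕ) : al k i = qa (fun _ => 0) 4 0 (2 ^ k) (2 ^ i) := by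
  rw [← hQZ]
  rfl

theorem WIN_prof {t : ℝ} (h0 : 0 ≤ t) (h1 : t ≤ 1) : Profile (fun _ => t) := fun _ => ⟨h0, h1⟩

theorem WIN_qa_anti (hBanti : Banti_stmt) {s t : ℝ} (hs : 0 ≤ s) (hst : s ≤ t) (ht : t ≤ 1)
    (j : ℕ) (x : V) (m n : ℕ) : qa (fun _ => t) j x m n ≤ qa (fun _ => s) j x m n :=
  hBanti _ _ _ _ (WIN_prof hs (hst.trans ht)) (WIN_prof (hs.trans hst) ht) (SUB_loc j x m n)
    fun _ _ => hst

/-- Lower bound for the sum of the pivotal probabilities by the even points. -/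
theorem WIN_sum (ρ : V → ℝ) (J : ℕ) (hJ : 1 ≤ J) (F : Set (V → Bool)) (B : ℝ)
    (h : ∀ x : V, Even x.1 → Even x.2 → sd 0 x ≤ 2 ^ J →
      B ≤ Q ρ (Piv {(x.1 + 1, x.2)} F) (Piv {(x.1 + 1, x.2)} F)) :
    (4 : ℝ) ^ J * B ≤ ∑ v ∈ DqF (2 ^ J), Q ρ (Piv {v} F) (Piv {v} F) := by
  classical
  obtain ⟨J', rfl⟩ : ∃ J', J = J' + 1 := ⟨J - 1, by omega⟩
  set f : ℕ × ℕ → V := fun q => (2 * (q.1 : ℤ) - 2 ^ (J' + 1) + 1, 2 * (q.2 : ℤ) - 2 ^ (J' + 1)) with hf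
  have hinj : Set.InjOn f (Finset.range (2 ^ (J' + 1)) ×ˢ Finset.range (2 ^ (J' + 1)) : Finset (ℕ × ℕ)) := by
    intro p _ q _ hpq
    rw [hf] at hpq
    have h1 := congrArg Prod.fst hpq
    have h2 := congrArg Prod.snd hpq
    simp only at h1 h2
    ext <;> omega
  have hsub : (Finset.range (2 ^ (J' + 1)) ×ˢ Finset.range (2 ^ (J' + 1))).image f ⊆ DqF (2 ^ (J' + 1)) := by
    intro v hv
    rw [Finset.mem_image] at hv
    obtain ⟨q, hq, rfl⟩ := hv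
    rw [Finset.mem_product, Finset.mem_range, Finset.mem_range] at hq
    have h1 : (q.1 : ℤ) < 2 ^ (J' + 1) := by exact_mod_cast hq.1
    have h2 : (q.2 : ℤ) < 2 ^ (J' + 1) := by exact_mod_cast hq.2
    have h3 : (0 : ℤ) < 2 ^ (J' + 1) := by positivity
    simp only [DqF, hf, Finset.mem_product, Finset.mem_Icc]
    push_cast
    refine ⟨⟨?_, ?_⟩, ?_, ?_⟩ <;> omega
  calc (4 : ℝ) ^ (J' + 1) * B = ∑ q ∈ Finset.range (2 ^ (J' + 1)) ×ˢ Finset.range (2 ^ (J' + 1)), B := by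
        rw [Finset.sum_const, Finset.card_product, Finset.card_range, nsmul_eq_mul]
        push_cast
        rw [← mul_pow]
        norm_num
    _ ≤ ∑ q ∈ Finset.range (2 ^ (J' + 1)) ×ˢ Finset.range (2 ^ (J' + 1)),
        Q ρ (Piv {f q} F) (Piv {f q} F) := by
        apply Finset.sum_le_sum
        intro q hq
        rw [Finset.mem_product, Finset.mem_range, Finset.mem_range] at hq
        have h1 : (q.1 : ℤ) < 2 ^ (J' + 1) := by exact_mod_cast hq.1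
        have h2 : (q.2 : ℤ) < 2 ^ (J' + 1) := by exact_mod_cast hq.2
        have h3 : (0 : ℤ) < 2 ^ (J' + 1) := by positivity
        have h4 : (2 : ℤ) ^ (J' + 1) = 2 * 2 ^ J' := by ring
        have := h (2 * (q.1 : ℤ) - 2 ^ (J' + 1), 2 * (q.2 : ℤ) - 2 ^ (J' + 1))
          ⟨(q.1 : ℤ) - 2 ^ J', by rw [h4]; ring⟩ ⟨(q.2 : ℤ) - 2 ^ J', by rw [h4]; ring⟩
          (by rw [sd_le_iff]; push_cast; simp only [Prod.fst_zero, Prod.snd_zero]
              refine ⟨⟨?_, ?_⟩, ?_, ?_⟩ <;> omega)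
        exact this
    _ = ∑ v ∈ (Finset.range (2 ^ (J' + 1)) ×ˢ Finset.range (2 ^ (J' + 1))).image f,
        Q ρ (Piv {v} F) (Piv {v} F) := by
        rw [Finset.sum_image]
        exact hinj
    _ ≤ _ := Finset.sum_le_sum_of_subset_of_nonneg hsub fun _ _ _ => WIN_Q_nonneg _ _ _

theorem WIN (hFRP : FRP_stmt) (hST : ST_stmt) (hGRO : GRO_stmt) (hQMX : QMX_stmt)
    (hEXR : EXR_stmt) (hTRQ : TRQ_stmt) (hQZ : QZ_stmt) (hBrusso : Brusso_stmt)
    (hBanti : Banti_stmt) (hGLF : GLF_stmt) : WIN_stmt := by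
  obtain ⟨kS, hS⟩ := hST
  obtain ⟨kG, hG⟩ := hGRO
  obtain ⟨kF, hF⟩ := hFRP
  obtain ⟨CQ, hCQ, iQ, hQ⟩ := hQMX
  obtain ⟨CE, hCE, iE, hE⟩ := hEXR
  refine ⟨kS + kG + kF + iQ + iE, fun k hk => ?_⟩
  obtain ⟨cS, c₁, hcS, hc₁, hS⟩ := hS k (by omega)
  obtain ⟨cG, aG, hcG, haG, hG⟩ := hG k (by omega)
  obtain ⟨cF, hcF, jF, hF⟩ := hF k (by omega)
  obtain ⟨n₀, hn₀⟩ := pow_unbounded_of_one_lt (2 / cG) (Real.one_lt_rpow (x := 2) (by norm_num) haG)
  set J₀ := n₀ + 1 with hJ₀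
  have hJ₀' : 2 ≤ cG * (2 : ℝ) ^ (aG * (J₀ : ℝ)) := by
    rw [Real.rpow_mul (by norm_num), Real.rpow_natCast]
    rw [div_lt_iff₀ hcG] at hn₀
    have h1 : ((2 : ℝ) ^ aG) ^ n₀ ≤ ((2 : ℝ) ^ aG) ^ J₀ :=
      pow_le_pow_right₀ (Real.one_le_rpow (by norm_num) haG.le) (by omega)
    nlinarith
  have hCQ0 : 0 < CQ := by linarith
  set K : ℝ := c₁ * cF * cS / (2 * CQ) with hK
  have hK0 : 0 < K := by positivity
  refine ⟨c₁, max 1 (4 / K), k + jF + 7, J₀, hc₁, le_max_left _ _, by omega, by omega, ?_⟩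
  intro t p₀ J ht ht1 hp₀ htp
  -- positivity of al
  have hal : ∀ p, k < p → 0 < al k p := by
    intro p hp
    rw [WIN_al hQZ]
    exact (hE 4 (fun _ => 0) 0 k p 0 (Or.inr rfl) (WIN_prof le_rfl zero_le_one) (by simp) (by omega)
      hp).2.2
  have hA : ∀ p, k < p → 0 < 4 ^ p * al k p := fun p hp => mul_pos (by positivity) (hal p hp)
  set s : ℕ → ℝ := fun n => c₁ / (4 ^ (p₀ + J₀ * n) * al k (p₀ + J₀ * n)) with hs
  have hkp : ∀ n, k < p₀ + J₀ * n := fun n => by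
    have := Nat.zero_le (J₀ * n)
    omega
  have hs0 : ∀ n, 0 < s n := fun n => div_pos hc₁ (hA _ (hkp n))
  have hsn : ∀ n, s (n + 1) ≤ s n / 2 := by
    intro n
    have h1 := hG (p₀ + J₀ * n) (p₀ + J₀ * (n + 1)) (hkp n) (by rw [Nat.mul_add]; omega)
    have h2 : ((p₀ + J₀ * (n + 1) : ℕ) : ℝ) - ((p₀ + J₀ * n : ℕ) : ℝ) = J₀ := by push_cast; ring
    rw [h2] at h1
    have h3 := hA _ (hkp n)
    have h4 := hA _ (hkp (n + 1))
    have h5 : 2 * (4 ^ (p₀ + J₀ * n) * al k (p₀ + J₀ * n)) ≤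
        4 ^ (p₀ + J₀ * (n + 1)) * al k (p₀ + J₀ * (n + 1)) :=
      le_trans (mul_le_mul_of_nonneg_right hJ₀' h3.le) h1
    show c₁ / _ ≤ c₁ / _ / 2
    rw [div_div, div_le_div_iff₀ h4 (by positivity)]
    calc c₁ * (4 ^ (p₀ + J₀ * n) * al k (p₀ + J₀ * n) * 2) =
          c₁ * (2 * (4 ^ (p₀ + J₀ * n) * al k (p₀ + J₀ * n))) := by ring
      _ ≤ _ := mul_le_mul_of_nonneg_left h5 hc₁.le
  have hs00 : s 0 ≤ t := by
    show c₁ / _ ≤ t
    rw [div_le_iff₀ (hA _ (hkp 0))]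
    simpa using htp
  have hst : ∀ n, s n ≤ t := by
    intro n
    induction n with
    | zero => exact hs00
    | succ n ih => linarith [hsn n, hs0 n]
  -- the function
  set F := fq (2 ^ J) with hFdef
  set g : ℕ → ℝ := fun n => Q (fun _ => s n) F F with hg
  have hQanti : ∀ {a b : ℝ}, 0 ≤ a → a ≤ b → b ≤ 1 → Q (fun _ => b) F F ≤ Q (fun _ => a) F F :=
    fun h1 h2 h3 => hBanti _ _ _ _ (WIN_prof h1 (h2.trans h3)) (WIN_prof (h1.trans h2) h3)
      (hGLF _).1 fun _ _ => h2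
  set f : ℕ → ℝ := fun n => Q (fun _ => s n / 2) F F - Q (fun _ => s n) F F with hfdef
  have hf0 : ∀ n, 0 ≤ f n := fun n =>
    sub_nonneg.2 (hQanti (by have := hs0 n; positivity) (by linarith [hs0 n]) ((hst n).trans ht1))
  have hf1 : ∀ n, f n ≤ g (n + 1) - g n := fun n => by
    have := hQanti (hs0 (n + 1)).le (hsn n) (by linarith [hs0 n, hst n])
    simp only [hfdef, hg]
    linarith
  have hsumf : ∑ n ∈ Finset.range J, f n ≤ 1 := by
    refine le_trans (Finset.sum_le_sum fun n _ => hf1 n) ?_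
    rw [Finset.sum_range_sub]
    have h1 : g J ≤ 1 := WIN_Q_le_one _ _ _
    have h2 : 0 ≤ g 0 := WIN_Q_nonneg _ _ _
    linarith
  have key : ∀ n ∈ (Finset.range J).filter (fun n => p₀ + J₀ * n < J),
      K * ((4 : ℝ) ^ (J - (p₀ + J₀ * n)) * qa (fun _ => t) 4 0 (2 ^ (p₀ + J₀ * n)) (2 ^ J)) ≤
        4 * f n := by
    intro n hn
    have hnJ : p₀ + J₀ * n < J := (Finset.mem_filter.1 hn).2
    have h0p := Nat.zero_le (J₀ * n)
    set p := p₀ + J₀ * n with hp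
    have hsn1 : s n ≤ 1 := (hst n).trans ht1
    have hr := hBrusso (DqF (2 ^ J)) F (s n / 2) (s n) (hGLF _).1 (hGLF _).2
      (by have := hs0 n; positivity) (by linarith [hs0 n]) hsn1
    -- lower bound for the sum
    have hprof := WIN_prof (hs0 n).le hsn1
    have h1 := WIN_sum (fun _ => s n) J (by omega) F (cF * qa (fun _ => s n) 4 0 (2 ^ k) (2 ^ J))
      (fun x hx hy hxJ => by
        rw [← (hTRQ (s n) 4 x (2 ^ k) (2 ^ J) hx hy).1]
        exact hF J _ x (by omega) hprof hx hy hxJ)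
    have h2 := (hQ 4 (fun _ => s n) 0 k p 0 J (Or.inr rfl) hprof (by simp) (by omega) (by omega)
      (by omega)).1
    have h3 := hS p (s n) (by omega) (hs0 n).le hsn1 (by
      show c₁ / _ * _ ≤ c₁
      rw [div_mul_cancel₀ _ (hA _ (hkp n)).ne'])
    have h4 : qa (fun _ => t) 4 0 (2 ^ p) (2 ^ J) ≤ qa (fun _ => s n) 4 0 (2 ^ p) (2 ^ J) :=
      WIN_qa_anti hBanti (hs0 n).le (hst n) ht1 _ _ _ _
    simp only [add_zero, zero_add, pow_one] at h2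
    have hqt : 0 ≤ qa (fun _ => t) 4 0 (2 ^ p) (2 ^ J) := WIN_Q_nonneg _ _ _
    have halp := hal p (by omega)
    have h5 : cS * al k p * qa (fun _ => t) 4 0 (2 ^ p) (2 ^ J) ≤
        CQ * qa (fun _ => s n) 4 0 (2 ^ k) (2 ^ J) :=
      le_trans (mul_le_mul h3 h4 hqt (WIN_Q_nonneg _ _ _)) h2
    set S := ∑ v ∈ DqF (2 ^ J), Q (fun _ => s n) (Piv {v} F) (Piv {v} F) with hSdef
    have h6 : (4 : ℝ) ^ J * (cF * (cS * al k p * qa (fun _ => t) 4 0 (2 ^ p) (2 ^ J) / CQ)) ≤ S := by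
      refine le_trans ?_ h1
      have : cS * al k p * qa (fun _ => t) 4 0 (2 ^ p) (2 ^ J) / CQ ≤
          qa (fun _ => s n) 4 0 (2 ^ k) (2 ^ J) := by
        rw [div_le_iff₀ hCQ0, mul_comm _ CQ]
        exact h5
      gcongr
    have h7 : (s n - s n / 2) * ((4 : ℝ) ^ J * (cF * (cS * al k p *
        qa (fun _ => t) 4 0 (2 ^ p) (2 ^ J) / CQ))) ≤ 4 * f n :=
      le_trans (mul_le_mul_of_nonneg_left h6 (by linarith [hs0 n])) hr
    refine le_trans (le_of_eq ?_) h7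
    have h8 : (4 : ℝ) ^ J = 4 ^ (J - p) * 4 ^ p := by
      rw [← pow_add]
      congr 1
      omega
    have h9 : s n * (4 ^ p * al k p) = c₁ := div_mul_cancel₀ _ (hA _ (hkp n)).ne'
    rw [h8, hK, ← h9]
    field_simp
    ring
  have htot : K * ∑ n ∈ (Finset.range J).filter (fun n => p₀ + J₀ * n < J),
      (4 : ℝ) ^ (J - (p₀ + J₀ * n)) * qa (fun _ => t) 4 0 (2 ^ (p₀ + J₀ * n)) (2 ^ J) ≤ 4 := by
    rw [Finset.mul_sum]
    calc _ ≤ ∑ n ∈ (Finset.range J).filter (fun n => p₀ + J₀ * n < J), 4 * f n :=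
          Finset.sum_le_sum key
      _ ≤ ∑ n ∈ Finset.range J, 4 * f n :=
          Finset.sum_le_sum_of_subset_of_nonneg (Finset.filter_subset _ _)
            fun n _ _ => mul_nonneg (by norm_num) (hf0 n)
      _ = 4 * ∑ n ∈ Finset.range J, f n := (Finset.mul_sum _ _ _).symm
      _ ≤ 4 := by linarith
  refine le_trans ?_ (le_max_right _ _)
  rw [le_div_iff₀ hK0, mul_comm]
  exact htot

end DP
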